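import Pool.Agent.Q230.RS.Comp
import Pool.Agent.Q47.RS.Ins
import Pool.Agent.Q47.RS.K4
import Pool.Agent.Q47.RS.Ang
import Pool.Agent.Q47.RS.Pol
import Pool.Agent.Q47.RS.Drw
import Pool.Agent.Q47.RS.Kev

/-!
# Straight-line realizability of rotation systems of cubic graphs

Every rotation system of a cubic graph without component `K₄` is realized by a straight-line
drawing; a rotation system of `K₄` is realizable iff the number of the vertices whose cyclic order
is increasing is even. So the realizability problem for cubic graphs is in `P`.

The placement is found greedily: the vertices are placed one after the other, each far above or far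
below all the previous ones; a placed vertex with two placed neighbours on the same side, in the
right order, is safe. From a state with all placed vertices safe, but for at most one extreme end, one
can always go on; such a state is reached from a shortest cycle.
-/

set_option autoImplicit false

namespace Pool.Agent.Results.MP_8b4fe7_lc.CubicInP

open Pool.Agent.NPC Pool.Agent.Q230.RS

/-- the realizability problem restricted to cubic graphs -/
def CubicRealizable (N : List (List ℕ)) : Prop := IsRotationSystem N ∧ Cubic N ∧ Realizable N

theorem realizable_iff (N : List (List ℕ)) (hR : IsRotationSystem N) (hC : Cubic N) :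
    Realizable N ↔ EvenK4 N := by
  rw [Pool.Agent.Q47.RS.drw Pool.Agent.Q47.RS.ang N hR hC]
  constructor
  · rintro ⟨x, y, h⟩
    exact Pool.Agent.Q47.RS.kod N hR hC x y h.2.2
  · intro h
    exact glue _ (pl_comp Pool.Agent.Q47.RS.ins Pool.Agent.Q47.RS.cyc Pool.Agent.Q47.RS.cyx _
      (Pool.Agent.Q47.RS.kev Pool.Agent.Q47.RS.kfs N hR hC h))

/-- **Main theorem.** The straight-line realizability problem for rotation systems of cubic graphs
is in `P`. -/
theorem result : InPP CubicRealizable ∧
    ∀ N, IsRotationSystem N → Cubic N → (Realizable N ↔ EvenK4 N) := by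
  refine ⟨?_, realizable_iff⟩
  obtain ⟨d, hd, h⟩ := Pool.Agent.Q47.RS.pol
  refine inPP_of hd fun N => ?_
  rw [h N]
  constructor
  · rintro ⟨h1, h2, h3⟩
    exact ⟨h1, h2, (realizable_iff N h1 h2).1 h3⟩
  · rintro ⟨h1, h2, h3⟩
    exact ⟨h1, h2, (realizable_iff N h1 h2).2 h3⟩

end Pool.Agent.Results.MP_8b4fe7_lc.CubicInP
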